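import Pool.Agent.MP_c70b3b_mp.Cg.Stmt

open MeasureTheory

namespace Pool.Agent.MP_c70b3b_mp

/-- The Gibbs measures of the couplings `w`. -/
def gibbsSet (β : ℝ) (w : (ℤ × ℤ) × Bool → ℝ) : Set (Measure (ℤ × ℤ → Units ℤ)) :=
  {μ | ∀ C, IsGibbsIn β w C μ}

end Pool.Agent.MP_c70b3b_mp
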