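import Pool.Agent.Mg.Fc70b3ba.Ga3ae4b
import Pool.Agent.MP_c70b3b_mp.Tri.Stmt

/- The convex set of Gibbs measures of a fixed coupling field. -/

open MeasureTheory ProbabilityTheory Filter Topology BoundedContinuousFunction
open scoped symmDiff ENNReal NNReal

namespace Pool.Agent.MP_c70b3b_mp.Tri

open Cg

/-- Gibbs probability measures. -/
def GS (K : W) : Set (Measure S) := {μ | IsProbabilityMeasure μ ∧ Gibbs K μ}

lemma gibbs_of_cont {K : W} {μ : Measure S} [IsFiniteMeasure μ]
    (h : ∀ (x : V) (g : S →ᵇ ℝ), ∫ σ, g (flp {x} σ) ∂μ =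
      ∫ σ, g σ * Real.exp (-2 * en K (cob {x}) σ) ∂μ) : Gibbs K μ := by
  refine ⟨inferInstance, fun x => ?_⟩
  have hc := ((continuous_en K (cob {x})).const_mul (-2)).rexp
  have := isFiniteMeasure_withDensity_ofReal (μ := μ) (p3_int hc).2
  refine ext_of_forall_integral_eq_of_IsFiniteMeasure fun g => ?_
  rw [integral_map (measurable_flp _).aemeasurable g.continuous.measurable.aestronglyMeasurable,
    gib_integral _ ((measurable_en _ _).const_mul _)]
  exact h x g

lemma isGibbsIn_of {β : ℝ} {w : W} {μ : Measure S} (h : μ ∈ GS (β • w)) (C : Finset V) :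
    IsGibbsIn β w C μ := by
  classical
  have := h.1
  refine ⟨h.1, fun η => ?_⟩
  have hπ : Measurable fun (s : S) (x : {x // x ∉ C}) => s x :=
    measurable_pi_lambda _ fun y => measurable_pi_apply y.1
  have hA : MeasurableSet {s : S | ∀ x : C, s x = η x} := by
    rw [Set.ofPred_forall]
    refine MeasurableSet.iInter fun x => ?_
    have hm : Measurable fun s : S => s x := measurable_pi_apply _
    exact hm (measurableSet_singleton (η x))
  have hf : Measurable (Set.indicator {s : S | ∀ x : C, s x = η x} fun _ => (1 : ℝ)) :=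
    measurable_const.indicator hA
  have hi : Integrable (fun s => boltz β C η (w, s)) μ :=
    integrable_of_bdd ((flipb_meas β C η).comp measurable_prodMk_left) 1
      fun s => flipb_le β C η _
  have hi' := (integrable_const (μ := μ) (1 : ℝ)).indicator hA
  refine (ae_eq_condExp_of_forall_setIntegral_eq hπ.comap_le hi' (fun s _ _ => hi.integrableOn)
    ?_ ?_).symm
  · rintro _ ⟨B, hB, rfl⟩ -
    have hB' := hπ hB
    rw [← integral_indicator hB', ← integral_indicator hB']
    refine Eq.trans (integral_congr_ae (Eventually.of_forall fun σ => ?_))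
      (h.2.avg C (hf.indicator hB') 1 fun σ => ?_).symm
    · have h1 : ∀ ζ : C → ℤˣ, (fun x : {x // x ∉ C} => glue C ζ σ x) = fun x => σ x.1 :=
        fun ζ => funext fun x => dif_neg x.2
      have h2 : ∀ ζ : C → ℤˣ, (∀ x : C, glue C ζ σ x = η x) ↔ ζ = η := fun ζ => by
        simp only [glue, Finset.coe_mem, dif_pos, funext_iff]
      rw [flipb_sum C σ fun τ => Real.exp (en (β • w) (touch C) τ),
        flipb_sum C σ fun τ => Set.indicator _ _ τ * Real.exp (en (β • w) (touch C) τ)]
      simp only [Set.indicator_apply, Set.mem_preimage, Set.mem_ofPred_eq, h1, h2, flipb_boltz]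
      split_ifs <;> simp
    · simp only [Set.indicator_apply]
      split_ifs <;> simp
  · have h1 : Measurable fun t : {x // x ∉ C} → ℤˣ =>
        ((w, fun x => if h : x ∈ C then 1 else t ⟨x, h⟩) : W × S) := by
      refine measurable_const.prodMk (measurable_pi_lambda _ fun y => ?_)
      split_ifs with h
      · exact measurable_const
      · exact measurable_pi_apply _
    have h2 := (((flipb_meas β C η).comp h1).comp (comap_measurable
      fun (s : S) (x : {x // x ∉ C}) => s x)).stronglyMeasurable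
    refine (h2.aestronglyMeasurable (μ := μ)).congr (Eventually.of_forall fun p => ?_)
    have h3 : ∀ ζ : C → ℤˣ, glue C ζ (fun x => if x ∈ C then 1 else p x) = glue C ζ p :=
      fun ζ => funext fun x => by
        simp only [glue]
        split_ifs <;> rfl
    simp only [Function.comp, boltz, dite_eq_ite, h3]

theorem gs_eq (β : ℝ) (w : W) : gibbsSet β w = GS (β • w) := by
  ext μ
  refine ⟨fun h => ?_, fun h C => isGibbsIn_of h C⟩
  have := (h ∅).1
  refine ⟨this, gibbs_of_cont fun x g => ?_⟩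
  have hc := ((continuous_en (β • w) (cob {x})).const_mul (-2)).rexp
  rw [link_dlr (h {x}) (g := fun σ => g (flp {x} σ)) (g.continuous.comp (continuous_flp {x})),
    link_dlr (h {x}) (g := fun σ => g σ * Real.exp (-2 * en (β • w) (cob {x}) σ))
      (g.continuous.mul hc)]
  exact integral_congr_ae (Eventually.of_forall fun σ => gam_flip _ subset_rfl g σ)

variable {K : W} {μ ν : Measure S}

lemma gibbs_smul (h : Gibbs K μ) (c : ℝ≥0) : Gibbs K (c • μ) := by
  have := h.1
  refine ⟨inferInstance, fun x => ?_⟩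
  rw [Measure.map_smul, h.2 x]
  exact (withDensity_smul_measure (c : ℝ≥0∞) _).symm

lemma gibbs_sub (h : Gibbs K μ) (h' : Gibbs K ν) (hle : ν ≤ μ) : Gibbs K (μ - ν) := by
  have := h.1
  have := h'.1
  refine ⟨inferInstance, fun x => ?_⟩
  have h1 := h.2 x
  rw [← Measure.sub_add_cancel_of_le hle, Measure.map_add _ _ (measurable_flp _),
    withDensity_add_measure, ← h'.2 x] at h1
  ext s hs
  have h2 := congrArg (fun ρ : Measure S => ρ s) h1
  simp only [Measure.add_apply] at h2
  exact (ENNReal.add_left_inj (measure_ne_top _ _)).1 h2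

lemma wd_mono (f : S → ℝ≥0∞) (h : μ ≤ ν) : μ.withDensity f ≤ ν.withDensity f :=
  Measure.le_iff.2 fun s hs => by
    rw [withDensity_apply _ hs, withDensity_apply _ hs]
    exact lintegral_mono' (Measure.restrict_mono subset_rfl h) le_rfl

lemma gibbs_inf (h : Gibbs K μ) (h' : Gibbs K ν) : Gibbs K (μ ⊓ ν) := by
  have := h.1
  refine ⟨isFiniteMeasure_of_le μ inf_le_left, fun x => ?_⟩
  set f : S → ℝ≥0∞ := fun σ => ENNReal.ofReal (Real.exp (-2 * en K (cob {x}) σ)) with hf
  have hm : Measurable f := gib_meas K _ _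
  have h0 : ∀ σ, f σ ≠ 0 := fun σ => by simp [hf, Real.exp_pos]
  have ht : ∀ σ, f σ ≠ ∞ := fun σ => ENNReal.ofReal_ne_top
  have e1 : ∀ ρ : Measure S, (ρ.withDensity f).withDensity (fun σ => (f σ)⁻¹) = ρ := fun ρ =>
    withDensity_inv_same hm (Eventually.of_forall h0) (Eventually.of_forall ht)
  have e2 : ∀ ρ : Measure S, (ρ.withDensity fun σ => (f σ)⁻¹).withDensity f = ρ := fun ρ => by
    have := withDensity_inv_same (μ := ρ) hm.fun_inv
      (Eventually.of_forall fun σ => ENNReal.inv_ne_zero.2 (ht σ))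
      (Eventually.of_forall fun σ => ENNReal.inv_ne_top.2 (h0 σ))
    simpa only [inv_inv] using this
  have e3 : ∀ ρ : Measure S, (ρ.map (flp {x})).map (flp {x}) = ρ := fun ρ => by
    rw [Measure.map_map (measurable_flp _) (measurable_flp _),
      show flp {x} ∘ flp {x} = id from funext fun σ => flp_flp _ σ, Measure.map_id]
  have a1 : ∀ ρ, Gibbs K ρ → μ ⊓ ν ≤ ρ →
      ((μ ⊓ ν).map (flp {x})).withDensity (fun σ => (f σ)⁻¹) ≤ ρ := fun ρ hρ hle => by
    refine (wd_mono _ (Measure.map_mono hle (measurable_flp _))).trans_eq ?_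
    rw [hρ.2 x, e1]
  have a2 : ∀ ρ, Gibbs K ρ → μ ⊓ ν ≤ ρ →
      ((μ ⊓ ν).withDensity f).map (flp {x}) ≤ ρ := fun ρ hρ hle => by
    refine (Measure.map_mono (wd_mono _ hle) (measurable_flp _)).trans_eq ?_
    rw [← hρ.2 x, e3]
  refine le_antisymm ?_ ?_
  · have := wd_mono f (le_inf (a1 μ h inf_le_left) (a1 ν h' inf_le_right))
    rwa [e2] at this
  · have := Measure.map_mono (le_inf (a2 μ h inf_le_left) (a2 ν h' inf_le_right))
      (measurable_flp {x})
    rwa [e3] at this

/-- A Gibbs measure below an extremal one is proportional to it. -/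
lemma ext_le (h : μ ∈ (GS K).extremePoints ℝ≥0) (h' : Gibbs K ν) (hle : ν ≤ μ) :
    ν = (ν Set.univ).toNNReal • μ := by
  have := h.1.1
  have := h'.1
  set c := (ν Set.univ).toNNReal with hc
  have hcu : (c : ℝ≥0∞) = ν Set.univ := ENNReal.coe_toNNReal (measure_ne_top _ _)
  have hc1 : c ≤ 1 := by
    rw [← ENNReal.coe_le_coe, hcu]
    exact (hle Set.univ).trans_eq (by simp)
  rcases eq_or_ne c 0 with h0 | h0
  · rw [h0, zero_smul, ← Measure.measure_univ_eq_zero, ← hcu, h0, ENNReal.coe_zero]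
  rcases hc1.eq_or_lt with h1 | h1
  · rw [h1, one_smul]
    exact Measure.eq_of_le_of_measure_univ_eq hle (by rw [← hcu, h1]; simp)
  have hd : 1 - c ≠ 0 := (tsub_pos_of_lt h1).ne'
  have hs : (μ - ν) Set.univ = ((1 - c : ℝ≥0) : ℝ≥0∞) := by
    rw [Measure.sub_apply MeasurableSet.univ hle, ← hcu]
    simp
  have m1 : c⁻¹ • ν ∈ GS K := ⟨⟨by
    rw [Measure.smul_apply, ← hcu, ENNReal.smul_def, smul_eq_mul, ← ENNReal.coe_mul,
      inv_mul_cancel₀ h0, ENNReal.coe_one]⟩, gibbs_smul h' _⟩
  have m2 : (1 - c)⁻¹ • (μ - ν) ∈ GS K := ⟨⟨by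
    rw [Measure.smul_apply, hs, ENNReal.smul_def, smul_eq_mul, ← ENNReal.coe_mul,
      inv_mul_cancel₀ hd, ENNReal.coe_one]⟩, gibbs_smul (gibbs_sub h.1.2 h' hle) _⟩
  have key := h.2 m1 m2 ⟨c, 1 - c, pos_iff_ne_zero.2 h0, pos_iff_ne_zero.2 hd,
    add_tsub_cancel_of_le hc1, by
      rw [smul_smul, smul_smul, mul_inv_cancel₀ h0, mul_inv_cancel₀ hd, one_smul, one_smul,
        add_comm, Measure.sub_add_cancel_of_le hle]⟩
  rw [← key, smul_smul, mul_inv_cancel₀ h0, one_smul]

lemma ext_sing (h : μ ∈ (GS K).extremePoints ℝ≥0) (h' : ν ∈ (GS K).extremePoints ℝ≥0)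
    (hne : μ ≠ ν) : μ ⟂ₘ ν := by
  have hg := gibbs_inf h.1.2 h'.1.2
  have e1 := ext_le h hg inf_le_left
  have e2 := ext_le h' hg inf_le_right
  refine Measure.mutuallySingular_of_disjoint (disjoint_iff.2 ?_)
  set c := ((μ ⊓ ν) Set.univ).toNNReal
  rcases eq_or_ne c 0 with h0 | h0
  · rw [e1, h0, zero_smul]; rfl
  · refine absurd ?_ hne
    have := congrArg (fun ρ : Measure S => c⁻¹ • ρ) (e1.symm.trans e2)
    simpa only [smul_smul, inv_mul_cancel₀ h0, one_smul] using this

lemma measurable_ng : Measurable fun s : S => -s := continuous_neg.measurable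

lemma ng_ng (μ : Measure S) : (μ.map fun s => -s).map (fun s => -s) = μ := by
  rw [Measure.map_map measurable_ng measurable_ng]
  simp

lemma gs_ng (h : μ ∈ GS K) : μ.map (fun s => -s) ∈ GS K := by
  have := h.1
  refine ⟨Measure.isProbabilityMeasure_map measurable_ng.aemeasurable, inferInstance,
    fun x => (gib_lint (gib_meas _ _ _)).2 fun g hg => ?_⟩
  have h1 := (gib_lint (gib_meas K (-2) _)).1 (h.2.2 x) (fun σ => g (-σ)) (hg.comp measurable_ng)
  have e1 : ∀ σ : S, flp {x} (-σ) = -flp {x} σ := fun σ => by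
    funext y; simp only [flp, Pi.neg_apply]; split_ifs <;> rfl
  have e2 : ∀ σ : S, en K (cob {x}) (-σ) = en K (cob {x}) σ := fun σ => by
    simp only [en, bond, Pi.neg_apply, sp_neg, neg_mul_neg]
  rw [lintegral_map (f := fun σ => g (flp {x} σ)) (hg.comp (measurable_flp _)) measurable_ng,
    lintegral_map (f := fun σ => ENNReal.ofReal (Real.exp (-2 * en K (cob {x}) σ)) * g σ)
      ((gib_meas _ _ _).mul hg) measurable_ng]
  simp only [e1, e2]
  exact h1

lemma ext_ng (h : μ ∈ (GS K).extremePoints ℝ≥0) :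
    μ.map (fun s => -s) ∈ (GS K).extremePoints ℝ≥0 := by
  refine ⟨gs_ng h.1, ?_⟩
  rintro μ₁ h₁ μ₂ h₂ ⟨a, b, ha, hb, hab, e⟩
  have key := h.2 (gs_ng h₁) (gs_ng h₂) ⟨a, b, ha, hb, hab, by
    rw [← Measure.map_smul, ← Measure.map_smul, ← Measure.map_add _ _ measurable_ng, e, ng_ng]⟩
  rw [← key, ng_ng]

lemma chr_ng (A : Finset V) (σ : S) : chr A (-σ) = (-1) ^ A.card * chr A σ := by
  simp only [chr, Pi.neg_apply, sp_neg]
  rw [Finset.prod_neg]

lemma sym_eq [IsFiniteMeasure μ] [IsFiniteMeasure ν] (h : EvEq μ ν) :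
    μ + μ.map (fun s => -s) = ν + ν.map fun s => -s := by
  refine ext_chr fun A => ?_
  have key : ∀ (ρ : Measure S) [IsFiniteMeasure ρ], ∫ σ, chr A σ ∂(ρ + ρ.map fun s => -s) =
      (1 + (-1) ^ A.card) * ∫ σ, chr A σ ∂ρ := fun ρ _ => by
    rw [integral_add_measure (p3_int (continuous_chr A)) (p3_int (continuous_chr A)),
      integral_map measurable_ng.aemeasurable (measurable_chr A).aestronglyMeasurable]
    simp only [chr_ng]
    rw [integral_const_mul]
    ring
  rw [key, key]
  rcases Nat.even_or_odd A.card with h1 | h1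
  · rw [h A h1]
  · rw [h1.neg_one_pow]; ring

/-- If all Gibbs measures agree on even observables there is one or a pair of extremal ones. -/
theorem pair_of_even {α : Measure S} (hα : α ∈ (GS K).extremePoints ℝ≥0)
    (he : ∀ μ ∈ GS K, EvEq μ α) (hne : GS K ≠ {α}) :
    α ≠ α.map (fun s => -s) ∧ (GS K).extremePoints ℝ≥0 = {α, α.map fun s => -s} := by
  have := hα.1.1
  refine ⟨fun h => hne (Set.eq_singleton_iff_unique_mem.2 ⟨hα.1, fun μ hμ => ?_⟩), ?_⟩
  · have := hμ.1
    have h1 := sym_eq (he μ hμ)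
    rw [← h] at h1
    refine hα.2 hμ (gs_ng hμ) ⟨2⁻¹, 2⁻¹, by norm_num, by norm_num, by norm_num, ?_⟩
    rw [← smul_add, h1, smul_add, ← add_smul]
    norm_num
  · refine Set.Subset.antisymm (fun μ hμ => ?_) ?_
    · by_contra hc
      simp only [Set.mem_insert_iff, Set.mem_singleton_iff, not_or] at hc
      have := hμ.1.1
      have h1 := (ext_sing hμ hα hc.1).add_right (ext_sing hμ (ext_ng hα) hc.2)
      rw [← sym_eq (he μ hμ.1)] at h1
      exact IsProbabilityMeasure.ne_zero μ ((Measure.MutuallySingular.self_iff μ).1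
        (h1.mono le_rfl (Measure.le_add_right le_rfl)))
    · rintro μ (rfl | rfl)
      · exact hα
      · exact ext_ng hα

end Pool.Agent.MP_c70b3b_mp.Tri
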