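import Pool.Agent.MP_c70b3b_mp.Tri.A

/- One, two or infinitely many extremal Gibbs measures. -/

open MeasureTheory ProbabilityTheory Filter Topology BoundedContinuousFunction
open scoped symmDiff ENNReal NNReal

namespace Pool.Agent.MP_c70b3b_mp.Tri

open Cg

lemma cont_int {X : Type} [TopologicalSpace X] {F : X × S → ℝ} (hF : Continuous F) :
    Continuous fun p : X × ProbabilityMeasure S => ∫ σ, F (p.1, σ) ∂(p.2 : Measure S) := by
  have h1 : Continuous fun p : C(S, ℝ) × ProbabilityMeasure S => ∫ σ, p.1 σ ∂(p.2 : Measure S) := by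
    refine continuous_prod_of_continuous_lipschitzWith _ 1 (fun h => p2_cont h.continuous)
      fun μ => LipschitzWith.of_dist_le_mul fun h h' => ?_
    rw [NNReal.coe_one, one_mul, dist_eq_norm,
      ← integral_sub (p3_int h.continuous) (p3_int h'.continuous)]
    simpa using norm_integral_le_of_norm_le_const (μ := (μ : Measure S))
      (f := fun σ => h σ - h' σ) (C := dist h h') (Eventually.of_forall fun σ => by
        rw [← dist_eq_norm]; exact ContinuousMap.dist_apply_le_dist σ)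
  exact h1.comp (((ContinuousMap.curry ⟨F, hF⟩).continuous.comp continuous_fst).prodMk
    continuous_snd)

lemma closed_graph : IsClosed {p : W × ProbabilityMeasure S | Gibbs p.1 (p.2 : Measure S)} := by
  have e : {p : W × ProbabilityMeasure S | Gibbs p.1 (p.2 : Measure S)} = ⋂ (x : V) (g : S →ᵇ ℝ),
      {p | ∫ σ, g (flp {x} σ) ∂(p.2 : Measure S) =
        ∫ σ, g σ * Real.exp (-2 * en p.1 (cob {x}) σ) ∂(p.2 : Measure S)} := by
    ext p
    simp only [Set.mem_iInter, Set.mem_ofPred_eq]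
    exact ⟨fun h x g => h.integral_flp {x} g.continuous.measurable, gibbs_of_cont⟩
  rw [e]
  refine isClosed_iInter fun x => isClosed_iInter fun g => isClosed_eq
    ((p2_cont (g.continuous.comp (continuous_flp {x}))).comp continuous_snd) ?_
  have h1 : Continuous fun p : W × S => en p.1 (cob {x}) p.2 := by
    simpa only [one_smul] using continuous_en2 1 (cob {x})
  exact cont_int (F := fun p => g p.2 * Real.exp (-2 * en p.1 (cob {x}) p.2))
    ((g.continuous.comp continuous_snd).mul (h1.const_mul (-2)).rexp)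

/-- The vector of correlations. -/
noncomputable def cor (μ : Measure S) : Finset V → ℝ := fun A => ∫ σ, chr A σ ∂μ

lemma exists_ext {K : W} (hne : (GS K).Nonempty) (l : StrongDual ℝ (Finset V → ℝ)) :
    ∃ α ∈ (GS K).extremePoints ℝ≥0, ∀ μ ∈ GS K, l (cor μ) ≤ l (cor α) := by
  have hc : IsCompact (cor '' GS K) := by
    have h1 : IsCompact {ν : ProbabilityMeasure S | Gibbs K (ν : Measure S)} :=
      (closed_graph.preimage (Continuous.prodMk_right K)).isCompact
    have h2 := h1.image (f := fun ν : ProbabilityMeasure S => cor ν)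
      (continuous_pi fun A => p2_cont (continuous_chr A))
    convert h2 using 1
    ext v
    exact ⟨fun ⟨μ, hμ, e⟩ => ⟨⟨μ, hμ.1⟩, hμ.2, e⟩, fun ⟨ν, hν, e⟩ => ⟨ν, ⟨ν.2, hν⟩, e⟩⟩
  have hE := ContinuousLinearMap.toExposed.isExposed (l := l) (A := cor '' GS K)
  obtain ⟨v, hv, hm⟩ := hc.exists_isMaxOn (hne.image _) l.continuous.continuousOn
  obtain ⟨u, hu⟩ := (hE.isCompact hc).extremePoints_nonempty ⟨v, hv, hm⟩
  have hu' := hE.isExtreme.extremePoints_subset_extremePoints hu
  obtain ⟨α, hα, rfl⟩ := hu'.1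
  refine ⟨α, ⟨hα, ?_⟩, fun μ hμ => hu.1.2 _ ⟨μ, hμ, rfl⟩⟩
  rintro μ₁ h₁ μ₂ h₂ ⟨a, b, ha, hb, hab, e⟩
  have := hα.1
  have := h₁.1
  have := h₂.1
  have key := hu'.2 ⟨μ₁, h₁, rfl⟩ ⟨μ₂, h₂, rfl⟩ ⟨a, b, ha, hb, by exact_mod_cast hab, by
    funext A
    rw [← e]
    simp only [cor, Pi.add_apply, Pi.smul_apply, smul_eq_mul]
    rw [integral_add_measure (p3_int (continuous_chr A)) (p3_int (continuous_chr A)),
      integral_smul_nnreal_measure, integral_smul_nnreal_measure]
    rfl⟩
  exact ext_chr fun A => congrFun key A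

/-- The couplings with two Gibbs measures that differ by `δ` on `A`. -/
def NN (β : ℝ) (A : Finset V) (δ : ℝ) : Set W :=
  {w | ∃ μ ∈ GS (β • w), ∃ μ' ∈ GS (β • w), δ ≤ cor μ A - cor μ' A}

lemma meas_NN (β : ℝ) (A : Finset V) (δ : ℝ) : MeasurableSet (NN β A δ) := by
  have hb : Continuous fun p : W × ProbabilityMeasure S × ProbabilityMeasure S => β • p.1 :=
    continuous_fst.const_smul β
  have h1 : IsClosed {p : W × ProbabilityMeasure S × ProbabilityMeasure S |
      Gibbs (β • p.1) (p.2.1 : Measure S) ∧ Gibbs (β • p.1) (p.2.2 : Measure S) ∧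
        δ ≤ cor p.2.1 A - cor p.2.2 A} :=
    (closed_graph.preimage (hb.prodMk continuous_snd.fst)).inter
      ((closed_graph.preimage (hb.prodMk continuous_snd.snd)).inter (isClosed_le continuous_const
        (((p2_cont (continuous_chr A)).comp continuous_snd.fst).sub
          ((p2_cont (continuous_chr A)).comp continuous_snd.snd))))
  have h2 := (isClosedMap_fst_of_compactSpace _ h1).measurableSet
  convert h2 using 1
  ext w
  exact ⟨fun ⟨μ, hμ, μ', hμ', e⟩ => ⟨(w, ⟨μ, hμ.1⟩, ⟨μ', hμ'.1⟩), ⟨hμ.2, hμ'.2, e⟩, rfl⟩,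
    fun ⟨p, hp, e⟩ => e ▸ ⟨p.2.1, ⟨p.2.1.2, hp.1⟩, p.2.2, ⟨p.2.2.2, hp.2.1⟩, hp.2.2⟩⟩

lemma tr_tr (A : Finset V) (y z : V) : tr (tr A y) z = tr A (z + y) := by
  ext x; simp only [mem_tr, sub_sub]

lemma tr_zero (A : Finset V) : tr A 0 = A := by
  ext x; simp only [mem_tr, sub_zero]

lemma shW_shW (y z : V) (w : W) : shW z (shW y w) = shW (z + y) w := by
  funext e; simp only [shW, add_assoc]

lemma shW_zero (w : W) : shW 0 w = w := by
  funext e; simp only [shW, add_zero]

lemma NN_shift (β : ℝ) (A : Finset V) (δ : ℝ) (z : V) (w : W) :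
    shW z w ∈ NN β A δ ↔ w ∈ NN β (tr A z) δ := by
  have key : ∀ (A : Finset V) (z : V) (w : W), w ∈ NN β (tr A z) δ → shW z w ∈ NN β A δ := by
    rintro A z w ⟨μ, hμ, μ', hμ', e⟩
    have h1 : ∀ μ ∈ GS (β • w), μ.map (shS z) ∈ GS (β • shW z w) := fun μ hμ => by
      have := hμ.1
      exact ⟨Measure.isProbabilityMeasure_map (measurable_shS z).aemeasurable, gibbs_shift hμ.2 z⟩
    have h2 : ∀ μ : Measure S, cor (μ.map (shS z)) A = cor μ (tr A z) := fun μ => by
      simp only [cor, integral_map (measurable_shS z).aemeasurable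
        (measurable_chr A).aestronglyMeasurable, chr_shS]
    exact ⟨_, h1 μ hμ, _, h1 μ' hμ', by rwa [h2, h2]⟩
  refine ⟨fun h => ?_, key A z w⟩
  have := key (tr A z) (-z) (shW z w) (by rwa [tr_tr, neg_add_cancel, tr_zero])
  rwa [shW_shW, neg_add_cancel, shW_zero] at this

lemma zero_one {U : Set W} (hU : MeasurableSet U) (h : ∀ z w, shW z w ∈ U ↔ w ∈ U) :
    (∀ᵐ w ∂P, w ∈ U) ∨ ∀ᵐ w ∂P, w ∉ U := by
  classical
  obtain ⟨c, hc⟩ := erg (f := U.indicator fun _ => (1 : ℝ)) (measurable_const.indicator hU)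
    (fun w => by rw [Set.indicator_apply]; split_ifs <;> simp)
    fun z => Eventually.of_forall fun w => by simp only [Set.indicator_apply, h]
  rcases eq_or_ne c 0 with h0 | h0
  · exact Or.inr (hc.mono fun w hw hm => by simp [hm, h0] at hw)
  · refine Or.inl (hc.mono fun w hw => by_contra fun hm => h0 ?_)
    simpa [hm] using hw.symm

theorem null_or_inf {β : ℝ} (hβ : 0 ≤ β) {A : Finset V} (hA : Even A.card) {δ : ℝ} (hδ : 0 < δ) :
    (∀ᵐ w ∂P, w ∉ NN β A δ) ∨ ∀ᵐ w ∂P, ((GS (β • w)).extremePoints ℝ≥0).Infinite := by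
  classical
  set f : W → ℝ := (NN β A δ).indicator fun _ => 1 with hf
  have hm : Measurable f := measurable_const.indicator (meas_NN β A δ)
  have h0 : ∀ w, 0 ≤ f w := fun w => Set.indicator_nonneg (fun _ _ => zero_le_one) w
  have h1 : ∀ w, f w ≤ 1 := fun w => Set.indicator_le' (fun _ _ => le_rfl) (fun _ _ => zero_le_one) w
  set a : V → ℕ → W → ℝ := fun y n w => (∑ z ∈ box n, f (shW (z + y) w)) / (box n).card with ha
  have ma : ∀ y n, Measurable (a y n) := fun y n =>
    (Finset.measurable_sum _ fun z _ => hm.comp (measurable_shW _)).div_const _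
  have a0 : ∀ y n w, 0 ≤ a y n w := fun y n w =>
    div_nonneg (Finset.sum_nonneg fun z _ => h0 _) (Nat.cast_nonneg _)
  have hU : MeasurableSet {w | ∀ y, Tendsto (fun n => a y n w) atTop (𝓝 0)} := by
    rw [Set.ofPred_forall]
    exact MeasurableSet.iInter fun y => measurableSet_tendsto _ (ma y)
  have hs : ∀ y z n w, a y n (shW z w) = a (y + z) n w := fun y z n w => by
    simp only [ha, shW_shW, add_assoc]
  refine (zero_one hU fun z w => ?_).imp (fun h => ?_) fun h => ?_
  · simp only [Set.mem_ofPred_eq, hs]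
    exact ⟨fun h y => by simpa only [sub_add_cancel] using h (y - z), fun h y => h _⟩
  · have h2 := tendsto_integral_of_dominated_convergence (μ := P) (F := fun n => a 0 n)
      (f := fun _ => 0) (fun _ => 1) (fun n => (ma 0 n).aestronglyMeasurable) (integrable_const _)
      (fun n => Eventually.of_forall fun w => by
        rw [Real.norm_of_nonneg (a0 0 n w)]
        refine div_le_one_of_le₀ ?_ (Nat.cast_nonneg _)
        simpa using Finset.sum_le_sum (s := box n) fun z _ => h1 (shW (z + 0) w))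
      (h.mono fun w hw => hw 0)
    have hi : Integrable f P := integrable_of_bdd hm 1 fun w => by
      rw [abs_of_nonneg (h0 w)]; exact h1 w
    have h3 : ∀ n, ∫ w, a 0 (n + 1) w ∂P = ∫ w, f w ∂P := fun n => by
      have h4 : ∀ z, ∫ w, f (shW z w) ∂P = ∫ w, f w ∂P := fun z => by
        rw [← integral_map (measurable_shW z).aemeasurable hm.aestronglyMeasurable,
          (mp_shW z).map_eq]
      simp only [ha]
      rw [integral_div, integral_finsetSum (f := fun z w => f (shW (z + 0) w)) _ fun z _ =>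
        (mp_shW _).integrable_comp_of_integrable hi]
      simp only [h4, Finset.sum_const, nsmul_eq_mul]
      exact mul_div_cancel_left₀ _ (Nat.cast_ne_zero.2 (avg_card_ne n))
    have h5 := h2.comp (tendsto_add_atTop_nat 1)
    simp only [Function.comp_def, h3, integral_zero] at h5
    have h6 := (integral_eq_zero_iff_of_nonneg h0 hi).1 (tendsto_nhds_unique tendsto_const_nhds h5)
    filter_upwards [h6] with w hw hm
    simp [hf, hm] at hw
  · filter_upwards [h, congruent β hβ] with w hw hc hfin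
    refine hw fun y => ?_
    have hd : DependsOn (chr (tr A y)) (tr A y : Set V) := fun s t hst =>
      Finset.prod_congr rfl fun x hx => by rw [hst x hx]
    have he : ∀ s, chr (tr A y) (-s) = chr (tr A y) s := fun s => by
      rw [chr_ng, card_tr, hA.neg_one_pow, one_mul]
    have hl := (tendsto_finsetSum hfin.toFinset fun α hα =>
      tendsto_finsetSum hfin.toFinset fun α' hα' => hc _ _ hd he (fun _ => α) (fun _ => α')
        (fun n => isGibbsIn_of (hfin.mem_toFinset.1 hα).1 _)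
        fun n => isGibbsIn_of (hfin.mem_toFinset.1 hα').1 _).const_mul δ⁻¹
    simp only [Finset.sum_const_zero, mul_zero, chr_shS, tr_tr] at hl
    refine squeeze_zero (fun n => a0 y n w) (fun n => ?_) hl
    simp only [← Finset.sum_div, ← mul_div_assoc]
    refine div_le_div_of_nonneg_right ?_ (Nat.cast_nonneg _)
    simp only [Finset.sum_comm (s := hfin.toFinset) (t := box n)]
    rw [Finset.mul_sum]
    refine Finset.sum_le_sum fun z _ => ?_
    rw [hf, Set.indicator_apply]
    split_ifs with hz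
    · obtain ⟨μ, hμ, μ', hμ', e⟩ := (NN_shift β A δ _ w).1 hz
      obtain ⟨α, hα, e1⟩ := exists_ext ⟨μ, hμ⟩ (ContinuousLinearMap.proj (tr A (z + y)))
      obtain ⟨α', hα', e2⟩ := exists_ext ⟨μ, hμ⟩ (-ContinuousLinearMap.proj (tr A (z + y)))
      have e3 : cor μ (tr A (z + y)) ≤ cor α (tr A (z + y)) := e1 μ hμ
      have e4 : -cor μ' (tr A (z + y)) ≤ -cor α' (tr A (z + y)) := e2 μ' hμ'
      rw [le_inv_mul_iff₀ hδ, mul_one]
      refine le_trans (le_trans (le_trans ?_ (le_abs_self _)) (Finset.single_le_sum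
        (f := fun α' => |cor α (tr A (z + y)) - cor α' (tr A (z + y))|)
        (fun _ _ => abs_nonneg _) (hfin.mem_toFinset.2 hα'))) (Finset.single_le_sum
        (f := fun α => ∑ α' ∈ hfin.toFinset, |cor α (tr A (z + y)) - cor α' (tr A (z + y))|)
        (fun _ _ => Finset.sum_nonneg fun _ _ => abs_nonneg _) (hfin.mem_toFinset.2 hα))
      linarith
    · positivity

lemma cor_eq {β : ℝ} {w : W} {A : Finset V} (h : ∀ k : ℕ, w ∉ NN β A (1 / (k + 1)))
    {μ μ' : Measure S} (hμ : μ ∈ GS (β • w)) (hμ' : μ' ∈ GS (β • w)) : cor μ A = cor μ' A := by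
  have key : ∀ μ ∈ GS (β • w), ∀ μ' ∈ GS (β • w), cor μ A ≤ cor μ' A := fun μ hμ μ' hμ' => by
    by_contra hc
    obtain ⟨k, hk⟩ := exists_nat_one_div_lt (sub_pos.2 (not_le.1 hc))
    exact h k ⟨μ, hμ, μ', hμ', hk.le⟩
  exact le_antisymm (key _ hμ _ hμ') (key _ hμ' _ hμ)

lemma ea_kernel {β : ℝ} {ν : Measure (W × S)} (h : IsEA β ν) : ∃ κ : Kernel W S,
    IsMarkovKernel κ ∧ ν = P ⊗ₘ κ ∧ ∀ᵐ w ∂P, κ w ∈ GS (β • w) := by
  have := h.1
  have h1 : ν = P ⊗ₘ ν.condKernel := by
    have h2 : ν.fst = P := h.2.1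
    rw [← h2, Measure.disintegrate]
  refine ⟨ν.condKernel, inferInstance, h1, ?_⟩
  filter_upwards [ae_all_iff.2 fun x => setup_gibbs (h1 ▸ h) x] with w hw
  exact ⟨inferInstance, inferInstance, hw⟩

theorem trichotomy (β : ℝ) (hβ : 0 ≤ β) :
    ((∃! ν, IsEAOn β Set.univ ν) ∧ ∀ᵐ w ∂P, ∃ α, gibbsSet β w = {α}) ∨
    (∀ᵐ w ∂P, ∃ α : Measure S, α ≠ α.map (fun s => -s) ∧
      (gibbsSet β w).extremePoints ℝ≥0 = {α, α.map fun s => -s}) ∨
    ∀ᵐ w ∂P, ((gibbsSet β w).extremePoints ℝ≥0).Infinite := by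
  simp only [gs_eq]
  by_cases hc : ∀ᵐ w ∂P, ((GS (β • w)).extremePoints ℝ≥0).Infinite
  · exact Or.inr (Or.inr hc)
  obtain ⟨ν, hν⟩ := exists_isEA β
  obtain ⟨κ, hκ, e, hg⟩ := ea_kernel hν
  have hU : MeasurableSet {w | ∀ (A : Finset V) (k : ℕ), w ∉ NN β A (1 / (k + 1))} := by
    simp only [Set.ofPred_forall]
    exact MeasurableSet.iInter fun A => MeasurableSet.iInter fun k => (meas_NN β A _).compl
  refine (zero_one hU fun z w => ?_).imp (fun h => ?_) fun h => Or.inl ?_
  · simp only [Set.mem_ofPred_eq, NN_shift]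
    exact ⟨fun h A => by simpa only [tr_tr, add_neg_cancel, tr_zero] using h (tr A (-z)),
      fun h A => h _⟩
  · have h1 : ∀ᵐ w ∂P, GS (β • w) = {κ w} := by
      filter_upwards [h, hg] with w hw h1
      refine Set.eq_singleton_iff_unique_mem.2 ⟨h1, fun μ hμ => ?_⟩
      have := hμ.1
      exact ext_chr fun A => cor_eq (hw A) hμ h1
    refine ⟨⟨ν, isEA_iff.1 hν, fun ν' hν' => ?_⟩, h1.mono fun w hw => ⟨_, hw⟩⟩
    obtain ⟨κ', hκ', e', hg'⟩ := ea_kernel (isEA_iff.2 hν')
    rw [e, e']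
    refine Measure.compProd_congr ?_
    filter_upwards [h1, hg'] with w h2 h3
    rwa [h2] at h3
  · have h1 : ∀ᵐ w ∂P, ∀ (A : {A : Finset V // Even A.card}) (k : ℕ),
        w ∉ NN β A.1 (1 / (k + 1)) := ae_all_iff.2 fun A => ae_all_iff.2 fun k =>
      (null_or_inf hβ A.2 Nat.one_div_pos_of_nat).resolve_right hc
    filter_upwards [h, hg, h1] with w hw h2 h3
    obtain ⟨α, hα, -⟩ := exists_ext ⟨_, h2⟩ 0
    refine ⟨α, pair_of_even hα (fun μ hμ A hA => cor_eq (h3 ⟨A, hA⟩) hμ hα.1) fun h4 => hw ?_⟩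
    rintro A k ⟨μ, hμ, μ', hμ', h5⟩
    rw [h4] at hμ hμ'
    rw [hμ, hμ', sub_self] at h5
    exact absurd h5 (not_le.2 Nat.one_div_pos_of_nat)

end Pool.Agent.MP_c70b3b_mp.Tri
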